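import Pool.Agent.PVD.StmtsG
import Pool.Agent.Helper25_PVD.CVR

/-! Squad PVD, row PRF: projection volume and projection moment of a polytope. -/

set_option autoImplicit false

open MeasureTheory Metric Set Filter Topology

namespace PVD.H13

open PV PV3 PVD.H25

theorem Pr_neg {n : ℕ} (u : E n) (K : Set (E n)) :
    Pr (-u) K = (fun y => y + (-u)) '' Pr u K := by
  have hp : ∀ x : E n, proj (-u) x = proj u x := by
    intro x
    unfold proj
    rw [inner_neg_right, neg_smul, smul_neg, neg_neg]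
  ext y
  constructor
  · rintro ⟨x, hx, s, hs, rfl⟩
    refine ⟨proj u x + (1 - s) • u, ⟨x, hx, 1 - s, ⟨by linarith [hs.2], by linarith [hs.1]⟩, rfl⟩, ?_⟩
    change proj u x + (1 - s) • u + -u = _
    rw [hp, sub_smul, one_smul, smul_neg]
    abel
  · rintro ⟨z, ⟨x, hx, s, hs, rfl⟩, rfl⟩
    refine ⟨x, hx, 1 - s, ⟨by linarith [hs.2], by linarith [hs.1]⟩, ?_⟩
    change proj u x + s • u + -u = _
    rw [hp, sub_smul, one_smul, smul_neg]
    abel

theorem vl_neg {n : ℕ} (u : E n) (K : Set (E n)) : vl (Pr (-u) K) = vl (Pr u K) := by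
  rw [Pr_neg]
  unfold vl
  congr 1
  have h := (measurePreserving_add_right (volume : Measure (E n)) (-u)).measure_preimage_emb
    (measurableEmbedding_addRight (-u)) ((fun y => y + (-u)) '' Pr u K)
  rw [← h]
  congr 1
  exact Set.preimage_image_eq _ (add_left_injective (-u))

theorem int_neg {n : ℕ} (u : E n) {K : Set (E n)} (v : E n) (huv : inner ℝ u v = (0 : ℝ)) :
    ∫ y in Pr (-u) K, inner ℝ y v = ∫ y in Pr u K, inner ℝ y v := by
  rw [Pr_neg]
  rw [(measurePreserving_add_right (volume : Measure (E n)) (-u)).setIntegral_image_emb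
    (measurableEmbedding_addRight (-u)) (fun y => inner ℝ y v) (Pr u K)]
  congr 1
  funext y
  rw [inner_add_left, inner_neg_left, huv, neg_zero, add_zero]

open Classical in
theorem int_sum {n : ℕ} (cvr : CVRStmt) {U : Finset (E n)} (c : E n → ℝ) {u : E n} (hU : Un U)
    (hB : Bd U) (hu : ‖u‖ = 1) (f : E n → ℝ) (hf : Continuous f) :
    ∫ y in Pr u (Pl U c), f y =
      ∑ w ∈ U.filter (fun w => 0 < inner ℝ u w), ∫ y in Pr u (Fc U c w), f y := by
  obtain ⟨h1, h2⟩ := cvr n U c u hU hB hu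
  obtain ⟨F, hF⟩ : ∃ F, F = U.filter (fun w => 0 < inner ℝ u w) := ⟨_, rfl⟩
  have h3 : Pr u (Pl U c) = ⋃ w : {w // w ∈ F}, Pr u (Fc U c w.1) := by
    rw [h1]
    ext y
    simp only [Set.mem_iUnion, Set.mem_ofPred_eq]
    constructor
    · rintro ⟨w, hw, hy⟩
      exact ⟨⟨w, by rw [hF]; exact Finset.mem_filter.2 hw⟩, hy⟩
    · rintro ⟨⟨w, hw⟩, hy⟩
      rw [hF] at hw
      exact ⟨w, Finset.mem_filter.1 hw, hy⟩
  rw [← hF, h3]
  rw [integral_iUnion_ae]
  · rw [tsum_fintype]
    exact Finset.sum_coe_sort F fun w => ∫ y in Pr u (Fc U c w), f y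
  · intro w
    exact (compact_Pr u (compact_Fc hB c w.1)).measurableSet.nullMeasurableSet
  · intro a b hab
    have ha' := Finset.mem_filter.1 (hF ▸ a.2 : a.1 ∈ U.filter (fun w => 0 < inner ℝ u w))
    have hb' := Finset.mem_filter.1 (hF ▸ b.2 : b.1 ∈ U.filter (fun w => 0 < inner ℝ u w))
    exact h2 a.1 ha'.1 b.1 hb'.1 (fun h => hab (Subtype.ext h)) ha'.2 hb'.2
  · rw [← h3]
    exact hf.continuousOn.integrableOn_compact (compact_Pr u (compact_Pl hB c))

theorem prf (cvr : CVRStmt) (flt : FLTStmt) : PRFStmt := by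
  classical
  intro n U c u hU hB hu hm
  refine ⟨?_, ?_, vl_neg u _, fun v hv => int_neg u v hv⟩
  · have h1 := int_sum cvr c hU hB hu (fun _ => (1 : ℝ)) continuous_const
    have h2 : ∀ S : Set (E n), ∫ _ in S, (1 : ℝ) = vl S := by
      intro S
      rw [setIntegral_const, smul_eq_mul, mul_one]
      rfl
    rw [h2] at h1
    rw [h1]
    refine Finset.sum_congr (by congr) fun w hw => ?_
    have hw' := Finset.mem_filter.1 hw
    rw [h2]
    exact (flt n u w (c w) (Fc U c w) hu (hU w hw'.1) hw'.2 (compact_Fc hB c w)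
      (fun x hx => hx.2)).1
  · intro v hv
    have h1 := int_sum cvr c hU hB hu (fun y => inner ℝ y v) (by fun_prop)
    rw [h1]
    refine Finset.sum_congr (by congr) fun w hw => ?_
    have hw' := Finset.mem_filter.1 hw
    exact (flt n u w (c w) (Fc U c w) hu (hU w hw'.1) hw'.2 (compact_Fc hB c w)
      (fun x hx => hx.2)).2 (hm w hw'.1) v hv

end PVD.H13
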