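import Pool.Agent.PVD.StmtsM1

/-! Squad PVD, row RS3. -/

set_option autoImplicit false

open MeasureTheory Filter Topology

namespace Pool.Agent.PVD.M.H13

open Pool.Agent.PVD.L Pool.Agent.PVD.M

theorem cl_pos {e t : ℝ} (h0 : 0 < e) (h1 : e < 1) (ht0 : 0 < t) (ht1 : t < 1) (i : Fin 4) :
    0 < cl e i t := by
  fin_cases i
  · show 0 < 1 - t
    linarith
  · show 0 < t
    exact ht0
  · show 0 < min t e - e * t
    rcases le_total t e with h | h
    · rw [min_eq_left h]; nlinarith
    · rw [min_eq_right h]; nlinarith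
  · show 0 < min t (1 - e) - (1 - e) * t
    rcases le_total t (1 - e) with h | h
    · rw [min_eq_left h]; nlinarith
    · rw [min_eq_right h]; nlinarith

theorem rs3 (blf : BlfStmt) : Rs3Stmt := by
  intro e he0 he1 A m hA hm
  obtain ⟨_, _, _, _, b5, b6, b7, b8⟩ := blf e he0 he1 m
  have hpos : ∀ t : ℝ, 0 < t → t ≤ 1 → 0 < fm e m t := by
    intro t ht0 ht1
    rcases hA with rfl | rfl
    · exact b5 hm t ht0.le ht1
    · exact b6 hm t ht0 ht1
  have hint : ∀ i ∈ A, IntervalIntegrable (fun t => cl e i t / fm e m t) volume 0 1 := by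
    intro i hi
    rw [intervalIntegrable_iff_integrableOn_Ioc_of_le (by norm_num : (0 : ℝ) ≤ 1)]
    refine Measure.integrableOn_of_bounded (M := (m i)⁻¹) ?_ ?_ ?_
    · rw [Real.volume_Ioc]
      exact ENNReal.ofReal_ne_top
    · exact ((cl_cont e i).measurable.div (fm_cont e m).measurable).aestronglyMeasurable
    · rw [ae_restrict_iff' measurableSet_Ioc]
      refine ae_of_all _ fun t ht => ?_
      have h1 := hpos t ht.1 ht.2
      have h2 := b8 A hm i hi t ht.1.le ht.2
      have h3 := cl_nonneg he0 (by linarith) ht.1.le ht.2 i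
      rw [Real.norm_eq_abs, abs_of_nonneg (div_nonneg h3 h1.le), div_le_iff₀ h1]
      exact h2
  refine ⟨?_, fun i hi => ?_⟩
  · have h1 : ∑ i ∈ A, m i * Hm e m i =
        ∫ t in (0:ℝ)..1, ∑ i ∈ A, m i * (cl e i t / fm e m t) := by
      rw [intervalIntegral.integral_finsetSum fun i hi => (hint i hi).const_mul (m i)]
      refine Finset.sum_congr rfl fun i _ => ?_
      rw [intervalIntegral.integral_const_mul]
      rfl
    rw [h1, intervalIntegral.integral_of_le (by norm_num : (0 : ℝ) ≤ 1)]
    have h2 : ∫ t in Set.Ioc (0 : ℝ) 1, ∑ i ∈ A, m i * (cl e i t / fm e m t) =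
        ∫ _ in Set.Ioc (0 : ℝ) 1, (1 : ℝ) := by
      refine setIntegral_congr_fun measurableSet_Ioc fun t ht => ?_
      have h3 := hpos t ht.1 ht.2
      have h4 : ∑ i ∈ A, m i * (cl e i t / fm e m t) = (∑ i ∈ A, m i * cl e i t) / fm e m t := by
        rw [Finset.sum_div]
        refine Finset.sum_congr rfl fun i _ => ?_
        rw [mul_div_assoc]
      change ∑ i ∈ A, m i * (cl e i t / fm e m t) = 1
      rw [h4, b7 A hm t]
      exact div_self h3.ne'
    rw [h2, setIntegral_const, smul_eq_mul, mul_one, Measure.real, Real.volume_Ioc]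
    norm_num
  · refine intervalIntegral.intervalIntegral_pos_of_pos_on (hint i hi) (fun t ht => ?_) (by norm_num)
    exact div_pos (cl_pos he0 (by linarith) ht.1 ht.2 i) (hpos t ht.1 ht.2.le)

end Pool.Agent.PVD.M.H13
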