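import Pool.Agent.PVD.StmtsM1

/-! Squad PVD, row SSC: the limit of the normalised logarithmic volume of the bodies. -/

set_option autoImplicit false

open MeasureTheory Filter Topology

namespace Pool.Agent.PVD.M.H13

open Pool.Agent.PVD.L Pool.Agent.PVD.M

theorem ssc (h1 : DicStmt) (h2 : SsaStmt) : SscStmt := by
  intro k hk A hA mu hmu ι F mm hi hmm hhi
  have hk0 : (0 : ℝ) < 1 / k := by
    have : (0 : ℝ) < k := by exact_mod_cast (by omega : 0 < k)
    positivity
  have hk2 : (1 : ℝ) / k < 1 / 2 := by
    have : (128 : ℝ) < k := by exact_mod_cast hk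
    rw [div_lt_div_iff₀ (by linarith) (by norm_num)]
    linarith
  have hn : Tendsto (fun x => nn k (mm x)) F atTop := by
    have h3 : Tendsto (fun m : ℕ => nn k m) atTop atTop := by
      refine tendsto_atTop_mono' atTop (f₁ := fun m : ℕ => m) ?_ tendsto_id
      filter_upwards [eventually_ge_atTop 1] with m hm
      unfold nn
      have : 2 * m ≤ k * m := Nat.mul_le_mul_right m (by omega)
      omega
    exact h3.comp hmm
  obtain ⟨_, h4⟩ := h2 (1 / k) hk0 hk2 A mu hA hmu ι F (fun x => nn k (mm x)) hi hn hhi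
  refine h4.congr' ?_
  filter_upwards [hmm.eventually_ge_atTop 2] with x hx
  unfold SA SS VA WW _root_.PVD.W
  rw [h1 k (mm x) hk hx A (hi x)]
  simp only [one_div]

end Pool.Agent.PVD.M.H13
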